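import Mathlib

/-!
# Arithmetic of the number of words
-/

namespace Pool.Agent.FTD

theorem count_arith_aux {q T : ℕ} (hq : 2 ≤ q) (N C : ℕ → ℕ) (h0 : N 0 = 1)
    (hc0 : C 0 = 0) (h1 : ∀ s, s ≤ T + 2 → N (s + 1) + C s = q * N s) (h2 : ∀ s, C s ≤ N s)
    (h3 : ∀ s, s ≤ T → q ^ (T + 4) * C s ≤ q ^ (2 * s + 3)) :
    q ^ (T + 3) ≤ ∑ p ∈ Finset.range (T + 4), N p + ∑ p ∈ Finset.range (T + 3), N p := by
  have hQ : (2 : ℝ) ≤ q := by exact_mod_cast hq
  have hQ0 : (0 : ℝ) < q := by linarith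
  have hQ1 : (0 : ℝ) < (q : ℝ) - 1 := by linarith
  -- the error terms
  have key : ∀ j, j ≤ T → ((q : ℝ) - 1) * q ^ (T + 2 - j) * (q ^ (j + 1) - N (j + 1)) + q ^ 2 ≤
      q ^ (j + 2) := by
    intro j
    induction j with
    | zero =>
      intro _
      have e1 := h1 0 (by omega)
      rw [hc0, h0] at e1
      have e2 : ((N 1 : ℕ) : ℝ) = q := by
        have : N 1 = q := by simpa using e1
        exact_mod_cast this
      simp only [zero_add, pow_one]
      rw [e2]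
      simp
    | succ j ih =>
      intro hj
      have h4 := ih (by omega)
      have e1 := h1 (j + 1) (by omega)
      have e2 : ((N (j + 1 + 1) : ℕ) : ℝ) + C (j + 1) = q * N (j + 1) := by exact_mod_cast e1
      have e3 := h3 (j + 1) hj
      have e4 : (q : ℝ) ^ (T + 4) * C (j + 1) ≤ q ^ (2 * (j + 1) + 3) := by exact_mod_cast e3
      have e5 : (q : ℝ) ^ (T + 1 - j) * C (j + 1) ≤ q ^ (j + 2) := by
        have e6 : (q : ℝ) ^ (T + 4) = q ^ (j + 3) * q ^ (T + 1 - j) := by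
          rw [← pow_add]
          congr 1
          omega
        have e7 : (q : ℝ) ^ (2 * (j + 1) + 3) = q ^ (j + 3) * q ^ (j + 2) := by
          rw [← pow_add]
          congr 1
          omega
        rw [e6, e7, mul_assoc] at e4
        exact le_of_mul_le_mul_left e4 (by positivity)
      have e8 : T + 2 - (j + 1) = T + 1 - j := by omega
      have e9 : (q : ℝ) ^ (T + 2 - j) = q * q ^ (T + 1 - j) := by
        rw [← pow_succ']
        congr 1
        omega
      rw [e8]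
      rw [e9] at h4
      have e10 : ((N (j + 1 + 1) : ℕ) : ℝ) = q * N (j + 1) - C (j + 1) := by linarith
      rw [e10]
      have e11 : (q : ℝ) ^ (j + 1 + 1) = q * q ^ (j + 1) := pow_succ' _ _
      have e12 : (q : ℝ) ^ (j + 1 + 2) = q * q ^ (j + 2) := by
        rw [← pow_succ']
      rw [e11, e12]
      nlinarith [mul_le_mul_of_nonneg_left e5 hQ1.le]
  -- the sum of the small ones
  have hsmall : ∀ p, p ≤ T → ((q : ℝ) - 1) * q ^ 2 * q ^ p - q ^ p ≤ ((q : ℝ) - 1) * q ^ 2 * N p := by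
    intro p hp
    rcases Nat.eq_zero_or_pos p with rfl | hp0
    · rw [h0]
      simp
    · obtain ⟨j, rfl⟩ : ∃ j, p = j + 1 := ⟨p - 1, by omega⟩
      have h4 := key j (by omega)
      rcases le_or_gt ((q : ℝ) ^ (j + 1) - N (j + 1)) 0 with h5 | h5
      · have h6 : ((q : ℝ) - 1) * q ^ 2 * ((q : ℝ) ^ (j + 1) - N (j + 1)) ≤ 0 :=
          mul_nonpos_of_nonneg_of_nonpos (by positivity) h5
        have h7 : (0 : ℝ) ≤ q ^ (j + 1) := by positivity
        nlinarith
      · have h6 : (q : ℝ) ^ 3 ≤ q ^ (T + 2 - j) :=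
          pow_le_pow_right₀ (by linarith) (by omega)
        have h7 : ((q : ℝ) - 1) * q ^ 3 * ((q : ℝ) ^ (j + 1) - N (j + 1)) ≤ q ^ (j + 2) := by
          have h8 : ((q : ℝ) - 1) * q ^ 3 * ((q : ℝ) ^ (j + 1) - N (j + 1)) ≤
              ((q : ℝ) - 1) * q ^ (T + 2 - j) * ((q : ℝ) ^ (j + 1) - N (j + 1)) :=
            mul_le_mul_of_nonneg_right (mul_le_mul_of_nonneg_left h6 hQ1.le) h5.le
          have h9 : (0 : ℝ) ≤ (q : ℝ) ^ 2 := by positivity
          linarith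
        have h10 : (q : ℝ) * (((q : ℝ) - 1) * q ^ 2 * ((q : ℝ) ^ (j + 1) - N (j + 1))) ≤
            q * q ^ (j + 1) := by
          have e1 : (q : ℝ) * q ^ (j + 1) = q ^ (j + 2) := (pow_succ' _ _).symm
          rw [e1]
          calc _ = ((q : ℝ) - 1) * q ^ 3 * ((q : ℝ) ^ (j + 1) - N (j + 1)) := by ring
            _ ≤ _ := h7
        have h11 := le_of_mul_le_mul_left h10 hQ0
        linarith
  have hS : ((q : ℝ) - 1) * ∑ p ∈ Finset.range (T + 1), (q : ℝ) ^ p = q ^ (T + 1) - 1 := by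
    rw [mul_comm]
    exact geom_sum_mul _ _
  have hsum : ((q : ℝ) - 1) * q ^ 2 * ∑ p ∈ Finset.range (T + 1), (q : ℝ) ^ p -
      ∑ p ∈ Finset.range (T + 1), (q : ℝ) ^ p ≤
        ((q : ℝ) - 1) * q ^ 2 * ∑ p ∈ Finset.range (T + 1), (N p : ℝ) := by
    rw [Finset.mul_sum, Finset.mul_sum, ← Finset.sum_sub_distrib]
    refine Finset.sum_le_sum fun p hp => hsmall p ?_
    rw [Finset.mem_range] at hp
    omega
  have hT := key T le_rfl
  have e1 : T + 2 - T = 2 := by omega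
  rw [e1] at hT
  have f1 := h1 (T + 1) (by omega)
  have f2 := h1 (T + 2) (by omega)
  have f3 : ((N (T + 1 + 1) : ℕ) : ℝ) + C (T + 1) = q * N (T + 1) := by exact_mod_cast f1
  have f4 : ((N (T + 2 + 1) : ℕ) : ℝ) + C (T + 2) = q * N (T + 2) := by exact_mod_cast f2
  have f5 : (C (T + 1) : ℝ) ≤ N (T + 1) := by exact_mod_cast h2 (T + 1)
  have f6 : (C (T + 2) : ℝ) ≤ N (T + 2) := by exact_mod_cast h2 (T + 2)
  have g1 : ∑ p ∈ Finset.range (T + 4), N p = ∑ p ∈ Finset.range (T + 1), N p + N (T + 1) +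
      N (T + 2) + N (T + 3) := by
    rw [Finset.sum_range_succ, Finset.sum_range_succ, Finset.sum_range_succ]
  have g2 : ∑ p ∈ Finset.range (T + 3), N p = ∑ p ∈ Finset.range (T + 1), N p + N (T + 1) +
      N (T + 2) := by
    rw [Finset.sum_range_succ, Finset.sum_range_succ]
  rw [g1, g2]
  have goal : (q : ℝ) ^ (T + 3) ≤ (∑ p ∈ Finset.range (T + 1), (N p : ℝ) + N (T + 1) +
      N (T + 2) + N (T + 3)) + (∑ p ∈ Finset.range (T + 1), (N p : ℝ) + N (T + 1) + N (T + 2)) := by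
    generalize (∑ p ∈ Finset.range (T + 1), (N p : ℝ)) = A at hsum ⊢
    generalize (∑ p ∈ Finset.range (T + 1), (q : ℝ) ^ p) = S at hsum hS
    have e2 : (q : ℝ) ^ (T + 3) = q ^ 2 * q ^ (T + 1) := by rw [← pow_add]; congr 1; omega
    have e3 : (q : ℝ) ^ (T + 2) = q * q ^ (T + 1) := pow_succ' _ _
    rw [e3] at hT
    rw [e2]
    have hP : (0 : ℝ) < (q : ℝ) ^ (T + 1) := by positivity
    have hP1 : (1 : ℝ) ≤ (q : ℝ) ^ (T + 1) := one_le_pow₀ (by linarith)
    generalize (q : ℝ) ^ (T + 1) = P at hT hS hP hP1 ⊢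
    generalize (N (T + 1) : ℝ) = n1 at *
    have hn2 : (N (T + 1 + 1) : ℝ) = (N (T + 2) : ℝ) := rfl
    have hn3 : (N (T + 2 + 1) : ℝ) = (N (T + 3) : ℝ) := rfl
    rw [hn2] at f3
    rw [hn3] at f4
    generalize (N (T + 2) : ℝ) = n2 at *
    generalize (N (T + 3) : ℝ) = n3 at *
    generalize (C (T + 1) : ℝ) = c1 at *
    generalize (C (T + 2) : ℝ) = c2 at *
    generalize (q : ℝ) = Q at *
    have r1 : (Q - 1) * n1 ≤ n2 := by linarith
    have r2 : (Q - 1) * n2 ≤ n3 := by linarith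
    have r3 : (Q ^ 2 + 1) * n1 + 2 * A ≤ (A + n1 + n2 + n3) + (A + n1 + n2) := by
      have r4 : (Q + 1) * ((Q - 1) * n1) ≤ (Q + 1) * n2 :=
        mul_le_mul_of_nonneg_left r1 (by linarith)
      nlinarith
    refine le_trans ?_ r3
    have hSle : S ≤ P - 1 := by
      by_contra hcon
      push Not at hcon
      have hS0 : 0 ≤ S := by linarith
      have hQS : 0 ≤ (Q - 2) * S := mul_nonneg (by linarith) hS0
      linarith
    have r5 : (Q - 1) * Q ^ 2 * (Q ^ 2 * P) ≤ (Q - 1) * Q ^ 2 * ((Q ^ 2 + 1) * n1 + 2 * A) := by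
      have s1 : (Q ^ 2 + 1) * ((Q - 1) * Q ^ 2 * P - Q * P + Q ^ 2) ≤
          (Q ^ 2 + 1) * ((Q - 1) * Q ^ 2 * n1) := by
        refine mul_le_mul_of_nonneg_left ?_ (by positivity)
        linarith
      have s2 : (Q - 1) * Q ^ 2 * S = Q ^ 2 * (P - 1) := by
        calc (Q - 1) * Q ^ 2 * S = Q ^ 2 * ((Q - 1) * S) := by ring
          _ = _ := by rw [hS]
      have s3 : 0 ≤ P * ((Q - 2) * (Q + 1)) + Q ^ 2 * (Q ^ 2 - 1) := by
        have : 0 ≤ Q ^ 2 - 1 := by nlinarith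
        have : 0 ≤ (Q - 2) * (Q + 1) := mul_nonneg (by linarith) (by linarith)
        positivity
      nlinarith
    exact le_of_mul_le_mul_left r5 (by positivity)
  exact_mod_cast goal

theorem count_arith {q t : ℕ} (hq : 2 ≤ q) (ht : 2 ≤ t) (N C : ℕ → ℕ) (h0 : N 0 = 1)
    (hc0 : C 0 = 0) (h1 : ∀ s, s + 2 ≤ t → N (s + 1) + C s = q * N s) (h2 : ∀ s, C s ≤ N s)
    (h3 : ∀ s, s + 4 ≤ t → q ^ t * C s ≤ q ^ (2 * s + 3)) :
    q ^ (t - 1) ≤ ∑ p ∈ Finset.range t, N p + ∑ p ∈ Finset.range (t - 1), N p := by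
  have hN1 : N 1 = q := by
    have e1 := h1 0 (by omega)
    rw [hc0, h0] at e1
    simpa using e1
  rcases Nat.lt_or_ge t 4 with h4 | h4
  · rcases Nat.lt_or_ge t 3 with h5 | h5
    · obtain rfl : t = 2 := by omega
      simp [Finset.sum_range_succ, h0, hN1]
      omega
    · obtain rfl : t = 3 := by omega
      have e1 := h1 1 (by omega)
      have e2 := h2 1
      rw [hN1] at e1 e2
      simp only [Finset.sum_range_succ, Finset.sum_range_zero, h0, hN1]
      have e3 : q ^ (3 - 1) = q * q := by norm_num [pow_two]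
      rw [e3]
      have e4 : N (1 + 1) = N 2 := rfl
      rw [e4] at e1
      have e5 : N 2 + C 1 = q * q := e1
      omega
  · obtain ⟨T, rfl⟩ : ∃ T, t = T + 4 := ⟨t - 4, by omega⟩
    exact count_arith_aux hq N C h0 hc0 (fun s hs => h1 s (by omega)) h2
      (fun s hs => h3 s (by omega))

end Pool.Agent.FTD
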