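import Pool.Agent.FTD.Graph

/-!
# Fault tolerance of the third block graph
-/

namespace Pool.Agent.FTD

open Pool.Agent.Helper68 Pool.Agent.FT6

variable {k t N m : ℕ}

/-- the cross neighbour of `x` in a tree of colour `i` -/
def nx (t : ℕ) (i : Fin k) (x : TV k) : TV k :=
  if x.2.2.length + 2 ≤ t ∧ x.2.2.head? = some i then (i, x.2.1, sw x.1 i x.2.2)
  else if x.2.1 = true then (i, false, x.1 :: sw x.1 i x.2.2)
  else if x.2.2.head? = some i then (i, true, (sw x.1 i x.2.2).tail)
  else (i, false, sw x.1 i x.2.2)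

/-- `x` has a cross neighbour in a tree of colour `i` -/
def dir (t : ℕ) (i : Fin k) (x : TV k) : Prop :=
  (x.2.2.head? = some i ∧ t < x.2.2.length + ld i x.2.2 + 3) ∨
    (x.2.1 = true ∧ x.2.2.length + 2 = t) ∨ x.2.2.length + 1 = t

/-- the descendant of `x` with the word `i ^ j x` -/
def dn (i : Fin k) (j : ℕ) (x : TV k) : TV k := (x.1, x.2.1, List.replicate j i ++ x.2.2)

theorem dn_zero (i : Fin k) (x : TV k) : dn i 0 x = x := by simp [dn]

theorem dn_length (i : Fin k) (j : ℕ) (x : TV k) :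
    (dn i j x).2.2.length = j + x.2.2.length := by simp [dn]

theorem ld_dn (i : Fin k) (j : ℕ) (x : TV k) : j ≤ ld i (dn i j x).2.2 := by
  induction j with
  | zero => exact Nat.zero_le _
  | succ j ih =>
    have h : (dn i (j + 1) x).2.2 = i :: (dn i j x).2.2 := by
      simp [dn, List.replicate_succ]
    rw [h, ld_cons_self]
    omega

theorem nx_spec {x : TV k} {i : Fin k} (hx : Blk t x) (hi : i ≠ x.1) (hd : dir t i x) :
    Blk t (nx t i x) ∧ cross t x (nx t i x) ∧ (nx t i x).1 = i := by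
  obtain ⟨a, ε, w⟩ := x
  obtain ⟨h1, h2, h3⟩ := hx
  unfold dir at hd
  unfold nx
  simp only at h1 h2 h3 hi hd ⊢
  have hi' : a ≠ i := fun h => hi h.symm
  by_cases c1 : w.length + 2 ≤ t ∧ w.head? = some i
  · rw [if_pos c1]
    have hcr : t < w.length + ld i w + 3 := by
      have h5 : 1 ≤ ld i w := ld_pos.mpr c1.2
      rcases hd with h | h | h
      · exact h.2
      · omega
      · omega
    refine ⟨⟨sw_ne h1, sw_ok h2, ?_⟩, ⟨hi', Or.inl ⟨rfl, c1.1, c1.2, hcr, rfl⟩⟩, rfl⟩
    simp only [sw_length]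
    exact h3
  · rw [if_neg c1]
    cases ε with
    | true =>
      simp only [if_true] at h3 ⊢
      have hh : w.head? ≠ some i := fun h => c1 ⟨h3, h⟩
      have hl : w.length + 2 = t := by
        rcases hd with h | h | h
        · exact absurd h.1 hh
        · exact h.2
        · omega
      refine ⟨⟨?_, ?_, ?_⟩, ⟨hi', Or.inr (Or.inl ⟨rfl, rfl, hl, hh, rfl⟩)⟩, by trivial⟩
      · intro y hy
        simp only [List.mem_cons] at hy ⊢
        rcases hy with rfl | hy
        · exact hi'
        · exact sw_ne h1 y hy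
      · refine ⟨?_, sw_ok h2⟩
        intro hy
        rw [sw_head] at hy
        exact absurd hy hh
      · simp [sw_length]
        omega
    | false =>
      simp only [Bool.false_eq_true, if_false] at h3 hd ⊢
      have hl : w.length + 1 = t := by
        rcases hd with h | h | h
        · have : ¬ (w.length + 2 ≤ t) := fun h' => c1 ⟨h', h.1⟩
          omega
        · exact absurd h.1 (by simp)
        · exact h
      by_cases c3 : w.head? = some i
      · rw [if_pos c3]
        cases w with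
        | nil => simp at c3
        | cons c w =>
          simp only [List.head?_cons, Option.some.injEq] at c3
          subst c3
          have e1 : (sw a c (c :: w)).tail = sw a c w := rfl
          rw [e1]
          have h1' : ∀ y ∈ w, y ≠ a := fun y hy => h1 y (List.mem_cons_of_mem _ hy)
          simp only [List.length_cons] at hl
          refine ⟨⟨sw_ne h1', sw_ok h2.2, ?_⟩, ⟨hi', Or.inr (Or.inr (Or.inl
            ⟨rfl, rfl, ?_, ?_, ?_⟩))⟩, rfl⟩
          · simp only [sw_length, if_true]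
            omega
          · simp only [sw_length]
            omega
          · simp only
            intro h
            rw [sw_head] at h
            have h6 := h2.1 h
            have h7 : 1 ≤ ld c w := ld_pos.mpr h
            omega
          · simp only [sw_sw]
      · rw [if_neg c3]
        refine ⟨⟨sw_ne h1, sw_ok h2, ?_⟩, ⟨hi', Or.inr (Or.inr (Or.inr
          ⟨rfl, rfl, hl, c3, rfl⟩))⟩, rfl⟩
        simp only [sw_length, Bool.false_eq_true, if_false]
        omega

theorem dn_blk_succ {x : TV k} {i : Fin k} {j : ℕ} (hx : Blk t (dn i j x)) (hi : i ≠ x.1)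
    (hd : ¬ dir t i (dn i j x)) : Blk t (dn i (j + 1) x) := by
  have h : dn i (j + 1) x = (x.1, x.2.1, i :: (dn i j x).2.2) := by
    simp [dn, List.replicate_succ]
  have hx1 : (dn i j x).1 = x.1 := rfl
  have hx2 : (dn i j x).2.1 = x.2.1 := rfl
  rw [h]
  generalize dn i j x = z at hx hd hx1 hx2
  obtain ⟨h1, h2, h3⟩ := hx
  obtain ⟨a, ε, w⟩ := x
  obtain ⟨a', ε', w'⟩ := z
  simp only at hx1 hx2
  subst hx1
  subst hx2
  unfold dir at hd
  simp only at h1 h2 h3 hi hd
  push Not at hd
  refine ⟨?_, ⟨?_, h2⟩, ?_⟩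
  · intro y hy
    simp only [List.mem_cons] at hy ⊢
    rcases hy with rfl | hy
    · exact hi
    · exact h1 y hy
  · intro hy
    have := hd.1 hy
    omega
  · cases ε' with
    | true =>
      have := hd.2.1 rfl
      simp only [if_true, List.length_cons] at h3 ⊢
      omega
    | false =>
      have := hd.2.2
      simp only [Bool.false_eq_true, if_false, List.length_cons] at h3 ⊢
      omega

open Classical in
/-- the number of steps down -/
noncomputable def JJ (t : ℕ) (i : Fin k) (x : TV k) : ℕ :=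
  if h : ∃ j, dir t i (dn i j x) then Nat.find h else 0

theorem exists_dir {x : TV k} (hx : Blk t x) (i : Fin k) : ∃ j, dir t i (dn i j x) := by
  obtain ⟨a, ε, w⟩ := x
  have h3 := hx.2.2
  simp only at h3
  cases ε with
  | true =>
    simp only [if_true] at h3
    refine ⟨t - 2 - w.length, Or.inr (Or.inl ⟨rfl, ?_⟩)⟩
    rw [dn_length]
    simp only
    omega
  | false =>
    simp only [Bool.false_eq_true, if_false] at h3
    refine ⟨t - 1 - w.length, Or.inr (Or.inr ?_)⟩
    rw [dn_length]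
    simp only
    omega

theorem JJ_spec {x : TV k} (hx : Blk t x) {i : Fin k} (hi : i ≠ x.1) :
    dir t i (dn i (JJ t i x) x) ∧ ∀ j ≤ JJ t i x, Blk t (dn i j x) := by
  classical
  have h := exists_dir hx i
  have e : JJ t i x = Nat.find h := by
    unfold JJ
    rw [dif_pos h]
  rw [e]
  refine ⟨Nat.find_spec h, ?_⟩
  intro j
  induction j with
  | zero =>
    intro _
    rw [dn_zero]
    exact hx
  | succ j ih =>
    intro hj
    exact dn_blk_succ (ih (by omega)) hi (Nat.find_min h (by omega))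

/-- the length of the path -/
theorem len_path {x : TV k} (hx : Blk t x) {i : Fin k} (hi : i ≠ x.1) :
    JJ t i x + 1 + ((nx t i (dn i (JJ t i x) x)).2.2.length + 1) ≤ t + 1 := by
  obtain ⟨hd, hb⟩ := JJ_spec hx hi
  have hb1 := hb _ (le_refl _)
  have hld := ld_dn i (JJ t i x) x
  have hn := (nx_spec hb1 hi hd).1.2.2
  have hn1 : (nx t i (dn i (JJ t i x) x)).2.2.length + 1 ≤ t := by
    split_ifs at hn <;> omega
  rcases Nat.eq_zero_or_pos (JJ t i x) with h0 | h0
  · omega
  · generalize JJ t i x = J at *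
    have hy := dn_length i J x
    generalize hz : dn i J x = z at *
    have hh : z.2.2.head? = some i := ld_pos.mp (by omega)
    have ok1 := hb1.2.1
    unfold nx
    by_cases c1 : z.2.2.length + 2 ≤ t
    · rw [if_pos ⟨c1, hh⟩]
      simp only [sw_length]
      have := ok_ld ok1 c1 i
      omega
    · rw [if_neg (fun h => c1 h.1)]
      have hb3 := hb1.2.2
      have hε : z.2.1 = false := by
        by_contra h
        rw [Bool.not_eq_false] at h
        rw [h] at hb3
        simp only [if_true] at hb3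
        omega
      rw [if_neg (by rw [hε]; simp), if_pos hh]
      rw [hε] at hb3
      simp only [Bool.false_eq_true, if_false] at hb3
      have h5 := ok_ld_bot ok1 (by omega) i
      simp only [List.length_tail, sw_length]
      omega

/-- the suffixes of the word of `y` -/
def sfx (y : TV k) : Set (TV k) := {s | s.1 = y.1 ∧ s.2.1 = y.2.1 ∧ s.2.2 <:+ y.2.2}

/-- the inner vertices of the path number `i` of `x` -/
noncomputable def QB (t : ℕ) (i : Fin k) (x : TV k) : Set (TV k) :=
  if i = x.1 then {s | s.1 = x.1 ∧ s.2.1 = x.2.1 ∧ s.2.2 <:+ x.2.2 ∧ s.2.2 ≠ x.2.2}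
  else {s | ∃ j, 1 ≤ j ∧ j ≤ JJ t i x ∧ s = dn i j x} ∪ sfx (nx t i (dn i (JJ t i x) x))

/-- proper ancestor -/
def ancB (x y : TV k) : Prop := x.1 = y.1 ∧ x.2.1 = y.2.1 ∧ x.2.2 <:+ y.2.2 ∧ x.2.2 ≠ y.2.2

theorem ancB_len {x y : TV k} (h : ancB x y) : x.2.2.length < y.2.2.length := by
  obtain ⟨-, -, h1, h2⟩ := h
  rcases h1.length_le.lt_or_eq with h3 | h3
  · exact h3
  · exact absurd (h1.eq_of_length h3) h2

theorem ancB_trans {x y z : TV k} (h : ancB x y) (h' : ancB y z) : ancB x z := by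
  refine ⟨h.1.trans h'.1, h.2.1.trans h'.2.1, h.2.2.1.trans h'.2.2.1, ?_⟩
  intro h3
  have h1 := ancB_len h
  have h2 := ancB_len h'
  rw [h3] at h1
  omega

theorem nx_fst (t : ℕ) (i : Fin k) (x : TV k) : (nx t i x).1 = i := by
  unfold nx
  split_ifs <;> rfl

theorem QB_spec {i : Fin k} {x s : TV k} (c0 : Fin k) (h : s ∈ QB t i x) :
    (i = s.1 ∧ ¬ ancB x s) ∨ (i = s.2.2.headD c0 ∧ i ≠ s.1 ∧ ancB x s) := by
  unfold QB at h
  split_ifs at h with hi
  · left
    obtain ⟨h1, h2, h3, h4⟩ := h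
    refine ⟨hi.trans h1.symm, fun h5 => ?_⟩
    have h6 := ancB_len h5
    have h7 := h3.length_le
    omega
  · rcases h with ⟨j, hj1, hj2, rfl⟩ | h
    · right
      obtain ⟨j', rfl⟩ : ∃ j', j = j' + 1 := ⟨j - 1, by omega⟩
      refine ⟨by simp [dn, List.replicate_succ], hi, rfl, rfl, List.suffix_append _ _, ?_⟩
      intro h5
      have h6 := congrArg List.length h5
      rw [dn_length] at h6
      omega
    · left
      have h1 : s.1 = i := h.1.trans (nx_fst t i _)
      exact ⟨h1.symm, fun h5 => hi (h1.symm.trans h5.1.symm)⟩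

theorem QB_own {x s : TV k} (h : s ∈ QB t x.1 x) : ancB s x := by
  unfold QB at h
  rw [if_pos rfl] at h
  exact ⟨h.1, h.2.1, h.2.2.1, h.2.2.2⟩

section conn

variable {S : Finset (Fin k ⊕ XX k t N m)}

/-- the vertex of the block `β` -/
abbrev vt (k t N m : ℕ) (β : Fin N) (x : TV k) (hx : x ∈ blk k t) : Fin k ⊕ XX k t N m :=
  .inr (.inl (β, ⟨x, hx⟩))

theorem conn_up (β : Fin N) {a : Fin k} {ε : Bool} : ∀ (l : List (Fin k))
    (hx : ((a, ε, l) : TV k) ∈ blk k t),
    (∀ l' (hs : l' <:+ l), vt k t N m β (a, ε, l') (blk_suffix hx hs) ∉ S) → .inl a ∉ S →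
    Conn (gGraph k t N m) S (l.length + 1) (vt k t N m β (a, ε, l) hx) (.inl a)
  | [], hx, hS, ha => by
    have h1 := hS [] (List.suffix_refl _)
    exact (Conn.refl ha).cons h1 (Or.inr ⟨rfl, rfl⟩)
  | b :: l, hx, hS, ha => by
    have hx' : ((a, ε, l) : TV k) ∈ blk k t := blk_suffix hx (List.suffix_cons _ _)
    have h2 := conn_up β l hx' (fun l' hs => hS l' (hs.trans (List.suffix_cons _ _))) ha
    have h1 := hS (b :: l) (List.suffix_refl _)
    refine h2.cons h1 (Or.inr ?_)
    exact ⟨rfl, Or.inl ⟨rfl, rfl, b, rfl⟩⟩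

theorem conn_up' (β : Fin N) {y : TV k} (hy : y ∈ blk k t)
    (hS : ∀ s (hs : s ∈ blk k t), s ∈ sfx y → vt k t N m β s hs ∉ S) (hi : .inl y.1 ∉ S) :
    Conn (gGraph k t N m) S (y.2.2.length + 1) (vt k t N m β y hy) (.inl y.1) := by
  obtain ⟨a, ε, l⟩ := y
  exact conn_up β l hy (fun l' hs => hS _ _ ⟨rfl, rfl, hs⟩) hi

theorem conn_cross (β : Fin N) {x y : TV k} (hx : x ∈ blk k t) (hy : y ∈ blk k t)
    (h : low t x y) (hxS : vt k t N m β x hx ∉ S) (hyS : vt k t N m β y hy ∉ S) :
    Conn (gGraph k t N m) S 1 (vt k t N m β x hx) (vt k t N m β y hy) :=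
  (Conn.refl hyS).cons hxS (Or.inr ⟨rfl, h⟩)

theorem conn_dir (β : Fin N) {i : Fin k} {x : TV k} (hx : x ∈ blk k t) (hia : i ≠ x.1)
    (hd : dir t i x) (hxS : vt k t N m β x hx ∉ S) (hi : .inl i ∉ S)
    (hQ : ∀ s (hs : s ∈ blk k t), s ∈ sfx (nx t i x) → vt k t N m β s hs ∉ S) :
    Conn (gGraph k t N m) S (1 + ((nx t i x).2.2.length + 1)) (vt k t N m β x hx) (.inl i) := by
  obtain ⟨h1, h2, h3⟩ := nx_spec (mem_blk.mp hx) hia hd
  have h4 := conn_up' (S := S) (m := m) β (mem_blk.mpr h1) hQ (by rw [h3]; exact hi)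
  rw [h3] at h4
  have h5 := conn_cross (S := S) (m := m) β hx (mem_blk.mpr h1) (Or.inr (Or.inr h2)) hxS
    (hQ _ _ ⟨rfl, rfl, List.suffix_refl _⟩)
  exact Conn.trans' h5 h4

theorem conn_down (β : Fin N) {i : Fin k} {x : TV k} (hx : Blk t x) : ∀ (n : ℕ)
    (hb : ∀ j ≤ n, Blk t (dn i j x)),
    (∀ j (hj : j ≤ n), vt k t N m β (dn i j x) (mem_blk.mpr (hb j hj)) ∉ S) →
    Conn (gGraph k t N m) S n (vt k t N m β x (mem_blk.mpr hx))
      (vt k t N m β (dn i n x) (mem_blk.mpr (hb n (le_refl _))))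
  | 0, hb, hS => by
    have h := hS 0 (le_refl _)
    simp only [dn_zero] at h ⊢
    exact Conn.refl h
  | n + 1, hb, hS => by
    have h1 := conn_down β hx n (fun j hj => hb j (by omega)) (fun j hj => hS j (by omega))
    have h3 := conn_cross (S := S) (m := m) β (mem_blk.mpr (hb n (by omega)))
      (mem_blk.mpr (hb (n + 1) (le_refl _)))
      (Or.inr (Or.inl ⟨rfl, rfl, i, by simp [dn, List.replicate_succ]⟩))
      (hS n (by omega)) (hS (n + 1) (le_refl _))
    exact Conn.trans' h1 h3

theorem conn_path (β : Fin N) {i : Fin k} {x : TV k} (hx : x ∈ blk k t)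
    (hxS : vt k t N m β x hx ∉ S) (hi : .inl i ∉ S)
    (hQ : ∀ s (hs : s ∈ blk k t), s ∈ QB t i x → vt k t N m β s hs ∉ S) :
    Conn (gGraph k t N m) S (t + 1) (vt k t N m β x hx) (.inl i) := by
  have hx0 := mem_blk.mp hx
  by_cases hia : i = x.1
  · subst hia
    obtain ⟨a, ε, l⟩ := x
    have h2 : l.length + 1 ≤ t := by
      have := hx0.2.2
      simp only at this
      split_ifs at this <;> omega
    refine (conn_up β l hx ?_ hi).mono (by omega)
    intro l' hs
    by_cases hl' : l' = l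
    · subst hl'
      exact hxS
    · apply hQ
      unfold QB
      rw [if_pos rfl]
      exact ⟨rfl, rfl, hs, hl'⟩
  · obtain ⟨hd, hb⟩ := JJ_spec hx0 hia
    have hlen := len_path hx0 hia
    have hS : ∀ j (hj : j ≤ JJ t i x), vt k t N m β (dn i j x) (mem_blk.mpr (hb j hj)) ∉ S := by
      intro j hj
      rcases Nat.eq_zero_or_pos j with h0 | h0
      · subst h0
        simp only [dn_zero]
        exact hxS
      · apply hQ
        unfold QB
        rw [if_neg hia]
        exact Or.inl ⟨j, h0, hj, rfl⟩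
    have h1 := conn_down (S := S) (m := m) β hx0 (JJ t i x) hb hS
    have h2 := conn_dir (S := S) (m := m) β (mem_blk.mpr (hb _ (le_refl _))) (i := i) hia hd
      (hS _ (le_refl _)) hi (by
        intro s hs hsf
        apply hQ
        unfold QB
        rw [if_neg hia]
        exact Or.inr hsf)
    exact (Conn.trans' h1 h2).mono (by omega)

theorem conn_own (β : Fin N) {x : TV k} (hx : x ∈ blk k t)
    (hxS : vt k t N m β x hx ∉ S) (hi : .inl x.1 ∉ S)
    (hQ : ∀ s (hs : s ∈ blk k t), s ∈ QB t x.1 x → vt k t N m β s hs ∉ S) :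
    Conn (gGraph k t N m) S t (vt k t N m β x hx) (.inl x.1) := by
  have hx0 := mem_blk.mp hx
  obtain ⟨a, ε, l⟩ := x
  have h2 : l.length + 1 ≤ t := by
    have := hx0.2.2
    simp only at this
    split_ifs at this <;> omega
  refine (conn_up β l hx ?_ hi).mono (by omega)
  intro l' hs
  by_cases hl' : l' = l
  · subst hl'
    exact hxS
  · apply hQ
    unfold QB
    rw [if_pos rfl]
    exact ⟨rfl, rfl, hs, hl'⟩

end conn

theorem gGraph_conn (hk : 1 ≤ k) (ht : 1 ≤ t) (S : Finset (Fin k ⊕ XX k t N m))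
    (hS : S.card = k - 1) (u v : Fin k ⊕ XX k t N m) (hu : u ∉ S) (hv : v ∉ S) :
    Conn (gGraph k t N m) S (2 * (t + 1)) u v := by
  classical
  let c0 : Fin k := ⟨0, by omega⟩
  refine FTA.frame_conn (G := gGraph k t N m) (r := t + 1)
    (Q := fun i w => match w with
      | .inl y => {z | ∃ s, ∃ hs : s ∈ blk k t, s ∈ QB t i y.2.1 ∧ z = .inl (y.1, ⟨s, hs⟩)}
      | .inr _ => ∅)
    (col := fun w => match w with
      | .inl y => y.2.1.1
      | .inr _ => c0)
    (lam := fun w => match w with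
      | .inl y => y.2.1.2.2.headD c0
      | .inr _ => c0)
    (anc := fun w w' => match w, w' with
      | .inl y, .inl y' => y.1 = y'.1 ∧ ancB y.2.1 y'.2.1
      | _, _ => False)
    hk (by omega) (fun i j h => h) ?_ ?_ ?_ ?_ ?_ ?_ ?_ S hS u v hu hv
  · rintro i (y | e) s hs
    · obtain ⟨s', hs', h1, rfl⟩ := hs
      rcases QB_spec c0 h1 with ⟨h2, h3⟩ | ⟨h2, h3, h4⟩
      · exact Or.inl ⟨h2, fun h => h3 h.2⟩
      · exact Or.inr ⟨h2, h3, rfl, h4⟩
    · exact absurd hs (by simp)
  · rintro (x | e) (y | f) h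
    · exact h.2.1
    · exact h.elim
    · exact h.elim
    · exact h.elim
  · rintro (y | e) s hs
    · obtain ⟨s', hs', h1, rfl⟩ := hs
      exact ⟨rfl, QB_own h1⟩
    · exact absurd hs (by simp)
  · rintro (x | e) (y | f) (z | g) h h'
    · exact ⟨h.1.trans h'.1, ancB_trans h.2 h'.2⟩
    all_goals first | exact h.elim | exact h'.elim
  · rintro (x | e) h
    · exact absurd (ancB_len h.2) (lt_irrefl _)
    · exact h
  · rintro S i (⟨β, x, hx⟩ | e) hu hi hQ
    · exact conn_path β hx hu hi (fun s hs hsQ => hQ _ ⟨s, hs, hsQ, rfl⟩)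
    · exact ((Conn.refl hi).cons hu (Or.inr trivial)).mono (by omega)
  · rintro S (⟨β, x, hx⟩ | e) hu hi hQ
    · exact (conn_own β hx hu hi (fun s hs hsQ => hQ _ ⟨s, hs, hsQ, rfl⟩)).mono (by omega)
    · exact ((Conn.refl hi).cons hu (Or.inr trivial)).mono (by omega)

end Pool.Agent.FTD
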