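import Pool.Agent.FTD.Graph

/-!
# Counting the vertices of the third block
-/

namespace Pool.Agent.FTD

variable {k t : ℕ}

/-- the head letter may not be repeated -/
def crit (t : ℕ) (l : List (Fin k)) : Prop := ∃ b, l.head? = some b ∧ t < l.length + ld b l + 3

open Classical in
/-- number of critical words -/
noncomputable def cc (k t : ℕ) (a : Fin k) (s : ℕ) : ℕ := ((wd k t a s).filter (crit t)).card

/-- long runs -/
def lrun (r : ℕ) (l : List (Fin k)) : Prop := ∃ b, l.head? = some b ∧ r ≤ ld b l

open Classical in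
/-- number of words with long runs -/
noncomputable def aa (k t : ℕ) (a : Fin k) (s r : ℕ) : ℕ := ((wd k t a s).filter (lrun r)).card

theorem card_wd_succ (hk : 1 ≤ k) (a : Fin k) (s : ℕ) :
    (wd k t a (s + 1)).card + cc k t a s = (k - 1) * (wd k t a s).card := by
  classical
  have h1 : (wd k t a (s + 1)).card = ∑ l ∈ wd k t a s, ((Finset.univ.erase a).filter
      (fun b => l.head? = some b → l.length + ld b l + 3 ≤ t)).card := by
    rw [wd, Finset.card_biUnion]
    · refine Finset.sum_congr rfl fun l _ => ?_
      exact Finset.card_image_of_injective _ (fun b c h => (List.cons.inj h).1)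
    · intro l _ l' _ hne
      rw [Function.onFun, Finset.disjoint_left]
      intro w hw hw'
      rw [Finset.mem_image] at hw hw'
      obtain ⟨b, -, rfl⟩ := hw
      obtain ⟨b', -, h⟩ := hw'
      exact hne (List.cons.inj h).2.symm
  have h2 : cc k t a s = ∑ l ∈ wd k t a s, (if crit t l then 1 else 0) := by
    unfold cc
    rw [Finset.card_filter]
  rw [h1, h2, ← Finset.sum_add_distrib, Finset.sum_const_nat (m := k - 1), Nat.mul_comm]
  intro l hl
  rw [mem_wd] at hl
  have h3 := Finset.card_filter_add_card_filter_not (s := (Finset.univ.erase a : Finset (Fin k)))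
    (fun b => l.head? = some b → l.length + ld b l + 3 ≤ t)
  have h4 : (Finset.univ.erase a : Finset (Fin k)).card = k - 1 := by
    rw [Finset.card_erase_of_mem (Finset.mem_univ _), Finset.card_univ, Fintype.card_fin]
  rw [h4] at h3
  rw [← h3]
  congr 1
  split_ifs with hc
  · obtain ⟨b, hb, hb2⟩ := hc
    symm
    rw [Finset.card_eq_one]
    refine ⟨b, ?_⟩
    ext c
    simp only [Finset.mem_filter, Finset.mem_erase, Finset.mem_univ, and_true,
      Finset.mem_singleton, Classical.not_imp]
    constructor
    · rintro ⟨-, h, -⟩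
      rw [hb, Option.some.injEq] at h
      exact h.symm
    · rintro rfl
      refine ⟨?_, hb, by omega⟩
      cases l with
      | nil => simp at hb
      | cons d l =>
        simp only [List.head?_cons, Option.some.injEq] at hb
        subst hb
        exact hl.2.1 d (by simp)
  · symm
    rw [Finset.card_eq_zero, Finset.filter_eq_empty_iff]
    intro c _ h
    apply hc
    rw [Classical.not_imp] at h
    exact ⟨c, h.1, by omega⟩

theorem card_wd_le (hk : 1 ≤ k) (a : Fin k) : ∀ s : ℕ, (wd k t a s).card ≤ (k - 1) ^ s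
  | 0 => by simp [wd]
  | s + 1 => by
    have h1 := card_wd_succ (t := t) hk a s
    have h2 := card_wd_le hk a s
    rw [pow_succ, Nat.mul_comm ((k - 1) ^ s)]
    exact (Nat.le_add_right _ _).trans (h1.le.trans (Nat.mul_le_mul_left _ h2))

theorem cc_zero (a : Fin k) : cc k t a 0 = 0 := by
  classical
  unfold cc
  rw [Finset.card_eq_zero, Finset.filter_eq_empty_iff]
  rintro l hl ⟨b, hb, -⟩
  rw [wd, Finset.mem_singleton] at hl
  subst hl
  simp at hb

theorem cc_le (a : Fin k) (s : ℕ) : cc k t a s ≤ (wd k t a s).card := by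
  classical
  exact Finset.card_filter_le _ _

theorem aa_succ (a : Fin k) (s r : ℕ) (hr : 1 ≤ r) : aa k t a (s + 1) (r + 1) ≤ aa k t a s r := by
  classical
  unfold aa
  refine Finset.card_le_card_of_injOn List.tail ?_ ?_
  · intro l hl
    simp only [Finset.coe_filter, Set.mem_setOf_eq, mem_wd] at hl ⊢
    obtain ⟨⟨h1, h2, h3⟩, b, hb, hb2⟩ := hl
    cases l with
    | nil => simp at hb
    | cons c l =>
      simp only [List.head?_cons, Option.some.injEq] at hb
      subst hb
      rw [ld_cons_self] at hb2
      rw [List.tail_cons]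
      refine ⟨⟨by simpa using h1, fun x hx => h2 x (List.mem_cons_of_mem _ hx), h3.2⟩, c, ?_,
        by omega⟩
      exact ld_pos.mp (by omega)
  · intro l hl l' hl' he
    simp only [Finset.coe_filter, Set.mem_setOf_eq, mem_wd] at hl hl'
    obtain ⟨⟨h1, h2, h3⟩, b, hb, hb2⟩ := hl
    obtain ⟨⟨h1', h2', h3'⟩, b', hb', hb2'⟩ := hl'
    cases l with
    | nil => simp at hb
    | cons c l =>
      cases l' with
      | nil => simp at hb'
      | cons c' l' =>
        simp only [List.head?_cons, Option.some.injEq] at hb hb'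
        subst hb
        subst hb'
        rw [List.tail_cons, List.tail_cons] at he
        subst he
        rw [ld_cons_self] at hb2 hb2'
        have e1 := ld_pos.mp (show 1 ≤ ld c l by omega)
        have e2 := ld_pos.mp (show 1 ≤ ld c' l by omega)
        rw [e1, Option.some.injEq] at e2
        rw [e2]

theorem aa_le (a : Fin k) : ∀ (r s : ℕ), r ≤ s → aa k t a (s + 1) (r + 1) ≤ (wd k t a (s + 1 - r)).card
  | 0, s, _ => by
    classical
    exact Finset.card_filter_le _ _
  | r + 1, 0, h => by omega
  | r + 1, s + 1, h => by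
    have h1 := aa_succ (k := k) (t := t) a (s + 1) (r + 1) (by omega)
    have h2 := aa_le a r s (by omega)
    have e : s + 1 + 1 - (r + 1) = s + 1 - r := by omega
    rw [e]
    exact h1.trans h2

theorem aa_zero (a : Fin k) (s r : ℕ) (h : s < r) : aa k t a s r = 0 := by
  classical
  unfold aa
  rw [Finset.card_eq_zero, Finset.filter_eq_empty_iff]
  rintro l hl ⟨b, -, hb⟩
  rw [mem_wd] at hl
  have := ld_le_length b l
  omega

theorem cc_le_aa (a : Fin k) (s : ℕ) (hs : s + 3 ≤ t) : cc k t a s ≤ aa k t a s (t - 2 - s) := by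
  classical
  unfold cc aa
  refine Finset.card_le_card ?_
  intro l hl
  simp only [Finset.mem_filter] at hl ⊢
  obtain ⟨h1, b, hb, hb2⟩ := hl
  refine ⟨h1, b, hb, ?_⟩
  rw [mem_wd] at h1
  omega

theorem cc_bound (hk : 1 ≤ k) (a : Fin k) (s : ℕ) (hs : s + 4 ≤ t) :
    (k - 1) ^ t * cc k t a s ≤ (k - 1) ^ (2 * s + 3) := by
  have h1 := cc_le_aa (k := k) a s (show s + 3 ≤ t by omega)
  by_cases h : s < t - 2 - s
  · rw [aa_zero a s _ h] at h1
    have h2 : cc k t a s = 0 := by omega
    rw [h2, Nat.mul_zero]
    exact Nat.zero_le _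
  · obtain ⟨s', rfl⟩ : ∃ s', s = s' + 1 := ⟨s - 1, by omega⟩
    obtain ⟨r, hr⟩ : ∃ r, t - 2 - (s' + 1) = r + 1 := ⟨t - 2 - (s' + 1) - 1, by omega⟩
    rw [hr] at h1
    have h2 := aa_le (k := k) (t := t) a r s' (by omega)
    have h3 := card_wd_le (t := t) hk a (s' + 1 - r)
    calc (k - 1) ^ t * cc k t a (s' + 1) ≤ (k - 1) ^ t * (k - 1) ^ (s' + 1 - r) :=
          Nat.mul_le_mul_left _ ((h1.trans h2).trans h3)
      _ = (k - 1) ^ (2 * (s' + 1) + 3) := by
          rw [← pow_add]
          congr 1
          omega

theorem card_blk (k t : ℕ) : (blk k t).card = ∑ a : Fin k,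
    (∑ p ∈ Finset.range t, (wd k t a p).card + ∑ p ∈ Finset.range (t - 1), (wd k t a p).card) := by
  classical
  unfold blk
  rw [Finset.card_biUnion]
  · refine Finset.sum_congr rfl fun a _ => ?_
    rw [Finset.card_biUnion]
    · rw [Fintype.sum_bool, Nat.add_comm]
      have hj : ∀ (ε : Bool) (M : ℕ), ((Finset.range M).biUnion (fun j =>
          (wd k t a j).image (fun l => ((a, ε, l) : TV k)))).card =
          ∑ p ∈ Finset.range M, (wd k t a p).card := by
        intro ε M
        rw [Finset.card_biUnion]
        · refine Finset.sum_congr rfl fun p _ => ?_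
          exact Finset.card_image_of_injective _ (fun l l' h => by simpa using h)
        · intro p _ p' _ hne
          rw [Function.onFun, Finset.disjoint_left]
          intro w hw hw'
          simp only [Finset.mem_image, mem_wd] at hw hw'
          obtain ⟨l, ⟨h1, -, -⟩, rfl⟩ := hw
          obtain ⟨l', ⟨h1', -, -⟩, h⟩ := hw'
          simp only [Prod.mk.injEq, true_and] at h
          subst h
          exact hne (h1.symm.trans h1')
      simp only [if_true, Bool.false_eq_true, if_false]
      rw [hj, hj]
    · intro ε _ ε' _ hne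
      rw [Function.onFun, Finset.disjoint_left]
      intro w hw hw'
      simp only [Finset.mem_biUnion, Finset.mem_image] at hw hw'
      obtain ⟨j, -, l, -, rfl⟩ := hw
      obtain ⟨j', -, l', -, h⟩ := hw'
      simp only [Prod.mk.injEq, true_and] at h
      exact hne h.1.symm
  · intro a _ a' _ hne
    rw [Function.onFun, Finset.disjoint_left]
    intro w hw hw'
    simp only [Finset.mem_biUnion, Finset.mem_image] at hw hw'
    obtain ⟨ε, -, j, -, l, -, rfl⟩ := hw
    obtain ⟨ε', -, j', -, l', -, h⟩ := hw'
    simp only [Prod.mk.injEq] at h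
    exact hne h.1.symm

end Pool.Agent.FTD
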