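import Pool.Agent.FTD.Block

/-!
# Degrees in the third block graph
-/

namespace Pool.Agent.FTD

open Pool.Agent.Helper68 Pool.Agent.FT6

variable {k t N m : ℕ}

theorem cross_eq_nx {x y : TV k} (h : cross t x y) : y = nx t y.1 x := by
  obtain ⟨a, ε, w⟩ := x
  obtain ⟨b, δ, v⟩ := y
  rcases h.2 with h | h | h | h
  · obtain ⟨h1, h2, h3, h5, h4⟩ := h
    unfold nx
    simp only at h1 h2 h3 h4 ⊢
    rw [if_pos ⟨h2, h3⟩, h1, h4]
  · obtain ⟨h1, h2, h3, h4, h5⟩ := h
    unfold nx
    simp only at h1 h2 h3 h4 h5 ⊢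
    rw [if_neg (fun h => h4 h.2), if_pos h1, h2, h5]
  · obtain ⟨h1, h2, h3, h4, h5⟩ := h
    unfold nx
    simp only at h1 h2 h3 h4 h5 ⊢
    have hw : w.length = v.length + 1 := by rw [h5, List.length_cons, sw_length]
    rw [if_neg (fun h => by omega), if_neg (by rw [h2]; simp), if_pos (by rw [h5]; rfl), h1, h5]
    have e1 : (sw a b (b :: sw b a v)).tail = sw a b (sw b a v) := rfl
    rw [e1, sw_sw]
  · obtain ⟨h1, h2, h3, h4, h5⟩ := h
    unfold nx
    simp only at h1 h2 h3 h4 h5 ⊢
    rw [if_neg (fun h => h4 h.2), if_neg (by rw [h1]; simp), if_neg h4, h2, h5]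

theorem cross_dir {x y : TV k} (h : cross t x y) : dir t y.1 x := by
  rcases h.2 with h | h | h | h
  · exact Or.inl ⟨h.2.2.1, h.2.2.2.1⟩
  · exact Or.inr (Or.inl ⟨h.1, h.2.2.1⟩)
  · right
    right
    rw [h.2.2.2.2, List.length_cons, sw_length]
    have := h.2.2.1
    omega
  · exact Or.inr (Or.inr h.2.2.1)

theorem child_not_dir {x y : TV k} (hy : Blk t y) (h : par y x) :
    ∃ b, y.2.2 = b :: x.2.2 ∧ b ≠ x.1 ∧ ¬ dir t b x := by
  obtain ⟨h1, h2, b, h3⟩ := h
  obtain ⟨g1, g2, g3⟩ := hy
  refine ⟨b, h3, ?_, ?_⟩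
  · rw [← h1]
    exact g1 b (by rw [h3]; simp)
  · rw [h3] at g2 g3
    rw [h2] at g3
    rw [List.length_cons] at g3
    rintro (h | h | h)
    · have := g2.1 h.1
      omega
    · rw [h.1] at g3
      simp only [if_true] at g3
      omega
    · split_ifs at g3 <;> omega

/-- the data of a neighbour -/
def raw (k t N m : ℕ) : (Fin k ⊕ XX k t N m) → Fin k ⊕ (TV k ⊕ Unit)
  | .inl i => .inl i
  | .inr (.inl y) => .inr (.inl y.2.1)
  | .inr (.inr _) => .inr (.inr ())

open Classical in
/-- the neighbour of `x` of colour `c` -/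
noncomputable def psi (t : ℕ) (x : TV k) (c : Fin k) : Fin k ⊕ (TV k ⊕ Unit) :=
  if c = x.1 then (if x.2.2 = [] then .inl c else .inr (.inl (x.1, x.2.1, x.2.2.tail)))
  else if dir t c x then .inr (.inl (nx t c x)) else .inr (.inl (x.1, x.2.1, c :: x.2.2))

theorem raw_mem (β : Fin N) (x : {x // x ∈ blk k t}) (v : Fin k ⊕ XX k t N m)
    (h : (gGraph k t N m).Adj (.inr (.inl (β, x))) v) : ∃ c, psi t x.1 c = raw k t N m v := by
  obtain ⟨x, hx⟩ := x
  rcases v with i | ⟨β', y, hy⟩ | e
  · obtain ⟨h1, h2⟩ : x.1 = i ∧ x.2.2 = [] := h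
    refine ⟨i, ?_⟩
    unfold psi
    simp only
    rw [if_pos h1.symm, if_pos h2]
    rfl
  · obtain ⟨-, h⟩ : β = β' ∧ low t x y := h
    rcases h with h | h | h
    · obtain ⟨h1, h2, b, h3⟩ := h
      refine ⟨x.1, ?_⟩
      unfold psi
      simp only
      rw [if_pos trivial, if_neg (by rw [h3]; simp), h3, List.tail_cons, h1, h2]
      rfl
    · obtain ⟨b, h1, h2, h3⟩ := child_not_dir (mem_blk.mp hy) h
      refine ⟨b, ?_⟩
      unfold psi
      simp only
      rw [if_neg h2, if_neg h3, ← h1, ← h.1, ← h.2.1]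
      rfl
    · refine ⟨y.1, ?_⟩
      have h1 := cross_eq_nx h
      have h2 := cross_dir h
      unfold psi
      simp only
      rw [if_neg h.1.symm, if_pos h2, ← h1]
      rfl
  · exact (show False from h).elim

theorem raw_inj (β : Fin N) (x : {x // x ∈ blk k t}) (v v' : Fin k ⊕ XX k t N m)
    (h : (gGraph k t N m).Adj (.inr (.inl (β, x))) v)
    (h' : (gGraph k t N m).Adj (.inr (.inl (β, x))) v') (e : raw k t N m v = raw k t N m v') :
    v = v' := by
  rcases v with i | ⟨β1, y, hy⟩ | f <;> rcases v' with i' | ⟨β1', y', hy'⟩ | f'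
  · rw [Sum.inl.inj (show (Sum.inl i : Fin k ⊕ (TV k ⊕ Unit)) = Sum.inl i' from e)]
  · simp [raw] at e
  · simp [raw] at e
  · simp [raw] at e
  · have h1 : β = β1 := h.1
    have h2 : β = β1' := h'.1
    have h3 : y = y' := by simpa [raw] using e
    subst h1
    subst h2
    subst h3
    rfl
  · simp [raw] at e
  · simp [raw] at e
  · simp [raw] at e
  · exact (show False from h).elim

section deg

open Classical

variable [DecidableRel (gGraph k t N m).Adj]

theorem degree_low (β : Fin N) (x : {x // x ∈ blk k t}) :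
    (gGraph k t N m).degree (.inr (.inl (β, x))) ≤ k := by
  rw [← SimpleGraph.card_neighborFinset_eq_degree]
  have h1 : ((gGraph k t N m).neighborFinset (.inr (.inl (β, x)))).card ≤
      ((Finset.univ : Finset (Fin k)).image (psi t x.1)).card := by
    refine Finset.card_le_card_of_injOn (raw k t N m) ?_ ?_
    · intro v hv
      rw [Finset.mem_coe, SimpleGraph.mem_neighborFinset] at hv
      obtain ⟨c, hc⟩ := raw_mem β x v hv
      rw [Finset.mem_coe, Finset.mem_image]
      exact ⟨c, Finset.mem_univ _, hc⟩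
    · intro v hv v' hv' he
      rw [Finset.mem_coe, SimpleGraph.mem_neighborFinset] at hv hv'
      exact raw_inj β x v v' hv hv' he
  refine h1.trans (Finset.card_image_le.trans ?_)
  rw [Finset.card_univ, Fintype.card_fin]

theorem degree_leftover (e : Fin m) : (gGraph k t N m).degree (.inr (.inr e)) ≤ k := by
  rw [← SimpleGraph.card_neighborFinset_eq_degree]
  have h1 : ((gGraph k t N m).neighborFinset (.inr (.inr e))).card ≤
      ((Finset.univ : Finset (Fin k)).image (Sum.inl : Fin k → Fin k ⊕ XX k t N m)).card := by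
    refine Finset.card_le_card ?_
    intro v hv
    rw [SimpleGraph.mem_neighborFinset] at hv
    rw [Finset.mem_image]
    rcases v with i | y | f
    · exact ⟨i, Finset.mem_univ _, rfl⟩
    · exact (show False from hv).elim
    · exact (show False from hv).elim
  refine h1.trans (Finset.card_image_le.trans ?_)
  rw [Finset.card_univ, Fintype.card_fin]

/-- the data of a neighbour of a hub -/
def hraw (k t N m : ℕ) : (Fin k ⊕ XX k t N m) → Fin k ⊕ ((Fin N × Bool) ⊕ Fin m)
  | .inl i => .inl i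
  | .inr (.inl y) => .inr (.inl (y.1, y.2.1.2.1))
  | .inr (.inr e) => .inr (.inr e)

theorem degree_hub (i : Fin k) : (gGraph k t N m).degree (.inl i) ≤ k + (2 * N + m) := by
  rw [← SimpleGraph.card_neighborFinset_eq_degree]
  have h1 : ((gGraph k t N m).neighborFinset (.inl i)).card ≤
      (Finset.univ : Finset (Fin k ⊕ ((Fin N × Bool) ⊕ Fin m))).card := by
    refine Finset.card_le_card_of_injOn (hraw k t N m) (fun _ _ => Finset.mem_univ _) ?_
    intro v hv v' hv' e
    rw [Finset.mem_coe, SimpleGraph.mem_neighborFinset] at hv hv'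
    rcases v with j | ⟨β1, ⟨a, ε, w⟩, hy⟩ | f <;> rcases v' with j' | ⟨β1', ⟨a', ε', w'⟩, hy'⟩ | f'
    · rw [Sum.inl.inj (show (Sum.inl j : Fin k ⊕ ((Fin N × Bool) ⊕ Fin m)) = Sum.inl j' from e)]
    · simp [hraw] at e
    · simp [hraw] at e
    · simp [hraw] at e
    · obtain ⟨h1, h2⟩ : a = i ∧ w = [] := hv
      obtain ⟨h1', h2'⟩ : a' = i ∧ w' = [] := hv'
      have h3 : β1 = β1' ∧ ε = ε' := by simpa [hraw] using e
      obtain ⟨h3, h4⟩ := h3
      subst h1
      subst h1'
      subst h2
      subst h2'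
      subst h3
      subst h4
      rfl
    · simp [hraw] at e
    · simp [hraw] at e
    · simp [hraw] at e
    · have h3 : f = f' := by simpa [hraw] using e
      rw [h3]
  refine h1.trans ?_
  simp only [Finset.card_univ, Fintype.card_sum, Fintype.card_prod, Fintype.card_fin,
    Fintype.card_bool]
  omega

end deg

theorem gGraph_edges (k t N m : ℕ) : 2 * (gGraph k t N m).edgeSet.ncard ≤
    k * (N * (blk k t).card + m + k) + 2 * k * N + k * m := by
  classical
  have h1 := (gGraph k t N m).sum_degrees_eq_twice_card_edges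
  have h2 : (gGraph k t N m).edgeSet.ncard = (gGraph k t N m).edgeFinset.card := by
    rw [← SimpleGraph.coe_edgeFinset, Set.ncard_coe_finset]
  rw [h2, ← h1, Fintype.sum_sum_type, Fintype.sum_sum_type]
  have a1 : ∑ i : Fin k, (gGraph k t N m).degree (.inl i) ≤ k * (k + (2 * N + m)) := by
    refine (Finset.sum_le_card_nsmul _ _ _ (fun i _ => degree_hub i)).trans ?_
    rw [Finset.card_univ, Fintype.card_fin, smul_eq_mul]
  have a2 : ∑ y : Fin N × {x // x ∈ blk k t}, (gGraph k t N m).degree (.inr (.inl y)) ≤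
      (N * (blk k t).card) * k := by
    refine (Finset.sum_le_card_nsmul _ _ _ (fun y _ => degree_low y.1 y.2)).trans ?_
    rw [Finset.card_univ, Fintype.card_prod, Fintype.card_fin, Fintype.card_coe, smul_eq_mul]
  have a3 : ∑ e : Fin m, (gGraph k t N m).degree (.inr (.inr e)) ≤ m * k := by
    refine (Finset.sum_le_card_nsmul _ _ _ (fun e _ => degree_leftover e)).trans ?_
    rw [Finset.card_univ, Fintype.card_fin, smul_eq_mul]
  refine (Nat.add_le_add a1 (Nat.add_le_add a2 a3)).trans (le_of_eq ?_)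
  ring

end Pool.Agent.FTD
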