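import Pool.Agent.FTD.Degree
import Pool.Agent.FTD.Count
import Pool.Agent.FTD.Arith
import Pool.Agent.FTA.Limit

/-!
# The upper bound from the third block
-/

namespace Pool.Agent.FTD

open Pool.Agent.Helper68 Pool.Agent.FTA

theorem card_vertices (k t N m : ℕ) : Fintype.card (Fin k ⊕ XX k t N m) =
    k + (N * (blk k t).card + m) := by
  simp

theorem le_card_blk {k t : ℕ} (hk : 3 ≤ k) (ht : 2 ≤ t) :
    k * (k - 1) ^ (t - 1) ≤ (blk k t).card := by
  rw [card_blk]
  have h : ∀ a ∈ (Finset.univ : Finset (Fin k)), (k - 1) ^ (t - 1) ≤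
      ∑ p ∈ Finset.range t, (wd k t a p).card + ∑ p ∈ Finset.range (t - 1), (wd k t a p).card := by
    intro a _
    exact count_arith (q := k - 1) (t := t) (by omega) ht (fun s => (wd k t a s).card)
      (fun s => cc k t a s) (by simp [wd]) (cc_zero a)
      (fun s _ => card_wd_succ (by omega) a s) (fun s => cc_le a s)
      (fun s hs => cc_bound (by omega) a s hs)
  have h2 := Finset.card_nsmul_le_sum _ _ _ h
  rw [Finset.card_univ, Fintype.card_fin, smul_eq_mul] at h2
  exact h2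

theorem fhat_upper {n k t : ℕ} (hk : 3 ≤ k) (ht : 2 ≤ t) (hn : k ≤ n) :
    (k - 1) ^ (t - 1) * (2 * fhat n (2 * (t + 1)) k) ≤
      (k - 1) ^ (t - 1) * (k * n) + 2 * 1 * n + (k - 1) ^ (t - 1) * (k * (blk k t).card) := by
  classical
  have hb := le_card_blk hk ht
  have hQ : 1 ≤ (k - 1) ^ (t - 1) := Nat.one_le_pow _ _ (by omega)
  have hK : 0 < (blk k t).card := by
    have : 0 < k * (k - 1) ^ (t - 1) := Nat.mul_pos (by omega) hQ
    omega
  have hdiv := Nat.div_add_mod (n - k) (blk k t).card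
  have hmod := Nat.mod_lt (n - k) hK
  generalize hN : (n - k) / (blk k t).card = N at *
  generalize hm : (n - k) % (blk k t).card = m at *
  have hn' : n = k + (N * (blk k t).card + m) := by
    rw [Nat.mul_comm]
    omega
  have h1 := fhat_le (d := 2 * (t + 1)) (k := k) (m := (gGraph k t N m).edgeSet.ncard)
    ((card_vertices k t N m).trans hn'.symm)
    (gGraph_conn (by omega) (by omega)) (le_refl _)
  have h2 := gGraph_edges k t N m
  generalize (gGraph k t N m).edgeSet.ncard = e at h1 h2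
  generalize fhat n (2 * (t + 1)) k = f at h1 ⊢
  generalize (k - 1) ^ (t - 1) = Q at hb hQ ⊢
  generalize (blk k t).card = K at *
  have h3 : 2 * f ≤ k * n + 2 * k * N + k * m := by
    have h4 : k * (N * K + m + k) = k * n := by
      rw [hn']
      ring
    omega
  have h5 : Q * (2 * k * N) ≤ 2 * 1 * n := by
    have h6 : N * (k * Q) ≤ N * K := Nat.mul_le_mul_left _ hb
    nlinarith
  have h7 : Q * (k * m) ≤ Q * (k * K) :=
    Nat.mul_le_mul_left _ (Nat.mul_le_mul_left _ hmod.le)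
  calc Q * (2 * f) ≤ Q * (k * n + 2 * k * N + k * m) := Nat.mul_le_mul_left _ h3
    _ = Q * (k * n) + Q * (2 * k * N) + Q * (k * m) := by ring
    _ ≤ _ := Nat.add_le_add (Nat.add_le_add_left h5 _) h7

/-- the upper bound -/
theorem limsup_le {d k : ℕ} (hk : 3 ≤ k) (hd : 6 ≤ d) :
    Filter.limsup (fun n : ℕ => phihat n d k / n) Filter.atTop ≤
      1 / ((k : ℝ) - 1) ^ (d / 2 - 2) := by
  obtain ⟨t, ht⟩ : ∃ t, d / 2 = t + 1 := ⟨d / 2 - 1, by omega⟩
  have ht2 : 2 ≤ t := by omega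
  have hQ : 1 ≤ (k - 1) ^ (t - 1) := Nat.one_le_pow _ _ (by omega)
  obtain ⟨B, hB⟩ : ∃ B, (k - 1) ^ (t - 1) = B + 1 := ⟨(k - 1) ^ (t - 1) - 1, by omega⟩
  have h1 := up_lim (d := d) (k := k) (t := 1) (B := B) (by omega)
    ((k - 1) ^ (t - 1) * (k * (blk k t).card)) (by
      intro n hn
      have h2 := fhat_upper (n := n) hk ht2 hn
      rw [← hB]
      refine (Nat.mul_le_mul_left _ (Nat.mul_le_mul_left _ (fhat_anti (n := n) (k := k)
        (d := 2 * (t + 1)) (by omega) (by omega)))).trans h2)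
  have h3 : ((B : ℝ) + 1) = ((k : ℝ) - 1) ^ (d / 2 - 2) := by
    have h4 : ((B + 1 : ℕ) : ℝ) = (((k - 1) ^ (t - 1) : ℕ) : ℝ) := by rw [hB]
    push_cast at h4
    rw [Nat.cast_sub (by omega)] at h4
    rw [h4, ht]
    have : t + 1 - 2 = t - 1 := by omega
    rw [this]
    push_cast
    rfl
  rw [h3] at h1
  simpa using h1

end Pool.Agent.FTD
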