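import Pool.Agent.FTA.Words

/-!
# The third block for diameter `2 t + 2`: words

For every colour `a` there are two trees; their vertices are words (lists, head = last letter, parent
= tail) without the letter `a`, of length at most `t - 1` resp. `t - 2`.  The head letter `b` of a word
`l` may be repeated only if `|l| + (number of leading letters b) + 3 ≤ t`.
-/

namespace Pool.Agent.FTD

variable {k t : ℕ}

/-- a tree vertex: colour, tree, word -/
abbrev TV (k : ℕ) : Type := Fin k × Bool × List (Fin k)

/-- number of leading letters `b` -/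
def ld (b : Fin k) : List (Fin k) → ℕ
  | [] => 0
  | c :: l => if c = b then ld b l + 1 else 0

/-- admissible words -/
def ok (t : ℕ) : List (Fin k) → Prop
  | [] => True
  | b :: l => (l.head? = some b → l.length + ld b l + 3 ≤ t) ∧ ok t l

theorem ld_cons_self (b : Fin k) (l : List (Fin k)) : ld b (b :: l) = ld b l + 1 := if_pos rfl

theorem ld_cons_ne {b c : Fin k} (h : c ≠ b) (l : List (Fin k)) : ld b (c :: l) = 0 := if_neg h

theorem ld_pos {b : Fin k} {l : List (Fin k)} : 1 ≤ ld b l ↔ l.head? = some b := by
  cases l with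
  | nil => simp [ld]
  | cons c l =>
    by_cases h : c = b
    · subst h
      simp [ld_cons_self]
    · simp [ld_cons_ne h, h]

theorem ld_eq_zero {b : Fin k} {l : List (Fin k)} (h : l.head? ≠ some b) : ld b l = 0 := by
  by_contra h1
  exact h (ld_pos.mp (Nat.one_le_iff_ne_zero.mpr h1))

theorem ld_le_length (b : Fin k) : ∀ l : List (Fin k), ld b l ≤ l.length
  | [] => Nat.le_refl _
  | c :: l => by
    have := ld_le_length b l
    by_cases h : c = b
    · subst h
      rw [ld_cons_self, List.length_cons]
      omega
    · rw [ld_cons_ne h]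
      exact Nat.zero_le _

theorem ok_suffix : ∀ {l l' : List (Fin k)}, ok t l → l' <:+ l → ok t l'
  | [], l', _, h => by
    rw [List.suffix_nil] at h
    rw [h]
    trivial
  | b :: l, l', hr, h => by
    rw [List.suffix_cons_iff] at h
    rcases h with rfl | h
    · exact hr
    · exact ok_suffix hr.2 h

theorem ld_map {f : Fin k → Fin k} (hf : Function.Injective f) (b : Fin k) :
    ∀ l : List (Fin k), ld (f b) (l.map f) = ld b l
  | [] => rfl
  | c :: l => by
    rw [List.map_cons]
    by_cases h : c = b
    · subst h
      rw [ld_cons_self, ld_cons_self, ld_map hf]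
    · rw [ld_cons_ne h, ld_cons_ne (fun h' => h (hf h'))]

theorem ok_map {f : Fin k → Fin k} (hf : Function.Injective f) : ∀ {l : List (Fin k)}, ok t l →
    ok t (l.map f)
  | [], _ => trivial
  | b :: l, h => by
    refine ⟨?_, ok_map hf h.2⟩
    intro hy
    rw [List.head?_map, Option.map_eq_some_iff] at hy
    obtain ⟨z, hz, hzb⟩ := hy
    have hzb' := hf hzb
    subst hzb'
    rw [List.length_map, ld_map hf]
    exact h.1 hz

/-- the vertices of the block -/
def Blk (t : ℕ) (x : TV k) : Prop :=
  (∀ y ∈ x.2.2, y ≠ x.1) ∧ ok t x.2.2 ∧ x.2.2.length + (if x.2.1 then 2 else 1) ≤ t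

/-- the word with `a` and `b` exchanged -/
def sw (a b : Fin k) (l : List (Fin k)) : List (Fin k) := l.map (Equiv.swap a b)

theorem sw_length (a b : Fin k) (l : List (Fin k)) : (sw a b l).length = l.length := by
  simp [sw]

theorem sw_sw (a b : Fin k) (l : List (Fin k)) : sw b a (sw a b l) = l := by
  unfold sw
  rw [List.map_map]
  have h7 : (⇑(Equiv.swap b a) ∘ ⇑(Equiv.swap a b)) = id := by
    funext z
    rw [Equiv.swap_comm b a]
    simp
  rw [h7, List.map_id]

theorem sw_ok {a b : Fin k} {l : List (Fin k)} (h : ok t l) : ok t (sw a b l) :=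
  ok_map (Equiv.injective _) h

theorem sw_ld (a b : Fin k) (l : List (Fin k)) : ld a (sw a b l) = ld b l := by
  have h := ld_map (Equiv.injective (Equiv.swap a b)) b l
  rw [Equiv.swap_apply_right] at h
  exact h

theorem sw_ne {a b : Fin k} {l : List (Fin k)} (h : ∀ y ∈ l, y ≠ a) : ∀ y ∈ sw a b l, y ≠ b := by
  intro y hy
  unfold sw at hy
  rw [List.mem_map] at hy
  obtain ⟨z, hz, rfl⟩ := hy
  intro h3
  apply h z hz
  have h4 := (Equiv.swap_apply_eq_iff (x := a) (y := b) (z := z) (w := b)).mp h3
  rw [h4, Equiv.swap_apply_right]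

theorem sw_head {a b : Fin k} {l : List (Fin k)} : (sw a b l).head? = some a ↔
    l.head? = some b := by
  rw [← ld_pos, ← ld_pos, sw_ld]

theorem ok_ld {l : List (Fin k)} (h : ok t l) (hl : l.length + 2 ≤ t) (b : Fin k) :
    l.length + ld b l + 1 ≤ t := by
  cases l with
  | nil =>
    simp only [ld, List.length_nil] at hl ⊢
    omega
  | cons c l =>
    by_cases hc : c = b
    · subst hc
      rw [ld_cons_self, List.length_cons]
      rw [List.length_cons] at hl
      by_cases h1 : l.head? = some c
      · have := h.1 h1
        omega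
      · rw [ld_eq_zero h1]
        omega
    · rw [ld_cons_ne hc]
      omega

theorem ok_ld_bot {l : List (Fin k)} (h : ok t l) (hl : l.length + 1 = t) (b : Fin k) :
    ld b l ≤ 1 := by
  cases l with
  | nil => simp [ld]
  | cons c l =>
    by_cases hc : c = b
    · subst hc
      rw [ld_cons_self]
      rw [List.length_cons] at hl
      by_cases h1 : l.head? = some c
      · have := h.1 h1
        omega
      · rw [ld_eq_zero h1]
    · rw [ld_cons_ne hc]
      omega

end Pool.Agent.FTD
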